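import Mathlib
import Pool.Agent.helper85.PG.Spec3

/-!
# pg:MOD, the model lemma of Ruzsa
-/

set_option autoImplicit false

namespace Pool.Agent.helper85.PG

open Pointwise

/-- the additive structure carried by a Freiman isomorphism of order 6 -/
private theorem mod_aux (p m : ℕ) [Fact p.Prime] [NeZero m] (A S : Finset (ZMod p))
    (hSA : S ⊆ A) (hS : S.Nonempty) (f : ZMod p → ZMod m)
    (key : ∀ a₁ ∈ S, ∀ a₂ ∈ S, ∀ a₃ ∈ S, ∀ a₄ ∈ S, ∀ a₅ ∈ S, ∀ a₆ ∈ S,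
      ∀ b₁ ∈ S, ∀ b₂ ∈ S, ∀ b₃ ∈ S, ∀ b₄ ∈ S, ∀ b₅ ∈ S, ∀ b₆ ∈ S,
      (f a₁ + f a₂ + f a₃ + f a₄ + f a₅ + f a₆ = f b₁ + f b₂ + f b₃ + f b₄ + f b₅ + f b₆ ↔
      a₁ + a₂ + a₃ + a₄ + a₅ + a₆ = b₁ + b₂ + b₃ + b₄ + b₅ + b₆)) :
    ∃ φ : ZMod m → ZMod p,
      (∀ x ∈ S.image f + S.image f - S.image f - S.image f, φ x ∈ A + A - A - A) ∧
      (∀ x ∈ S.image f + S.image f - S.image f - S.image f,
        ∀ x' ∈ S.image f + S.image f - S.image f - S.image f,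
        x + x' ∈ S.image f + S.image f - S.image f - S.image f → φ (x + x') = φ x + φ x') ∧
      (∀ x ∈ S.image f + S.image f - S.image f - S.image f,
        ∀ x' ∈ S.image f + S.image f - S.image f - S.image f, φ x = φ x' → x = x') := by
  classical
  obtain ⟨s, hs⟩ := hS
  have hmem : ∀ x ∈ S.image f + S.image f - S.image f - S.image f,
      ∃ a ∈ S, ∃ b ∈ S, ∃ c ∈ S, ∃ d ∈ S, x = f a + f b - f c - f d := by
    intro x hx
    obtain ⟨y, hy, w, hw, rfl⟩ := Finset.mem_sub.1 hx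
    obtain ⟨z, hz, v, hv, rfl⟩ := Finset.mem_sub.1 hy
    obtain ⟨g, hg, h, hh, rfl⟩ := Finset.mem_add.1 hz
    obtain ⟨a, ha, rfl⟩ := Finset.mem_image.1 hg
    obtain ⟨b, hb, rfl⟩ := Finset.mem_image.1 hh
    obtain ⟨c, hc, rfl⟩ := Finset.mem_image.1 hv
    obtain ⟨d, hd, rfl⟩ := Finset.mem_image.1 hw
    exact ⟨a, ha, b, hb, c, hc, d, hd, rfl⟩
  -- the function
  have hφ : ∃ φ : ZMod m → ZMod p, ∀ a ∈ S, ∀ b ∈ S, ∀ c ∈ S, ∀ d ∈ S,
      φ (f a + f b - f c - f d) = a + b - c - d := by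
    refine ⟨fun x => if h : ∃ y : ZMod p, ∃ a ∈ S, ∃ b ∈ S, ∃ c ∈ S, ∃ d ∈ S,
      x = f a + f b - f c - f d ∧ y = a + b - c - d then h.choose else 0, ?_⟩
    intro a ha b hb c hc d hd
    have h : ∃ y : ZMod p, ∃ a' ∈ S, ∃ b' ∈ S, ∃ c' ∈ S, ∃ d' ∈ S,
        f a + f b - f c - f d = f a' + f b' - f c' - f d' ∧ y = a' + b' - c' - d' :=
      ⟨_, a, ha, b, hb, c, hc, d, hd, rfl, rfl⟩
    simp only [dif_pos h]
    obtain ⟨a', ha', b', hb', c', hc', d', hd', h1, h2⟩ := h.choose_spec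
    rw [h2]
    have h3 := (key a ha b hb c' hc' d' hd' s hs s hs a' ha' b' hb' c hc d hd s hs s hs).1
      (by linear_combination h1)
    linear_combination -h3
  obtain ⟨φ, hφ⟩ := hφ
  refine ⟨φ, ?_, ?_, ?_⟩
  · intro x hx
    obtain ⟨a, ha, b, hb, c, hc, d, hd, rfl⟩ := hmem x hx
    rw [hφ a ha b hb c hc d hd]
    exact Finset.sub_mem_sub (Finset.sub_mem_sub (Finset.add_mem_add (hSA ha) (hSA hb)) (hSA hc))
      (hSA hd)
  · intro x hx x' hx' hxx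
    obtain ⟨a, ha, b, hb, c, hc, d, hd, rfl⟩ := hmem x hx
    obtain ⟨a', ha', b', hb', c', hc', d', hd', rfl⟩ := hmem x' hx'
    obtain ⟨a₁, ha₁, b₁, hb₁, c₁, hc₁, d₁, hd₁, h1⟩ := hmem _ hxx
    rw [h1, hφ a ha b hb c hc d hd, hφ a' ha' b' hb' c' hc' d' hd', hφ a₁ ha₁ b₁ hb₁ c₁ hc₁ d₁ hd₁]
    have h3 := (key a ha b hb a' ha' b' hb' c₁ hc₁ d₁ hd₁ c hc d hd c' hc' d' hd' a₁ ha₁ b₁ hb₁).1
      (by linear_combination h1)
    linear_combination -h3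
  · intro x hx x' hx' hxx
    obtain ⟨a, ha, b, hb, c, hc, d, hd, rfl⟩ := hmem x hx
    obtain ⟨a', ha', b', hb', c', hc', d', hd', rfl⟩ := hmem x' hx'
    rw [hφ a ha b hb c hc d hd, hφ a' ha' b' hb' c' hc' d' hd'] at hxx
    have h3 := (key a ha b hb c' hc' d' hd' s hs s hs a' ha' b' hb' c hc d hd s hs s hs).2
      (by linear_combination hxx)
    linear_combination h3

private theorem six_mem {p : ℕ} (A : Finset (ZMod p)) {a₁ a₂ a₃ a₄ a₅ a₆ : ZMod p}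
    (h₁ : a₁ ∈ A) (h₂ : a₂ ∈ A) (h₃ : a₃ ∈ A) (h₄ : a₄ ∈ A) (h₅ : a₅ ∈ A) (h₆ : a₆ ∈ A) :
    a₁ + a₂ + a₃ + a₄ + a₅ + a₆ ∈ 6 • A := by
  have h : 6 • A = A + A + A + A + A + A := by
    rw [show (6 : ℕ) = 0 + 1 + 1 + 1 + 1 + 1 + 1 from rfl]
    simp only [succ_nsmul, zero_nsmul, zero_add]
  rw [h]
  exact Finset.add_mem_add (Finset.add_mem_add (Finset.add_mem_add (Finset.add_mem_add
    (Finset.add_mem_add h₁ h₂) h₃) h₄) h₅) h₆

theorem MOD (hRZT : RZT_stmt) : MOD_stmt := by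
  classical
  intro K
  refine ⟨max 1 (24 * K ^ 12), le_max_left _ _, ?_⟩
  intro p hp A hA hK
  have hp0 : 0 < p := hp.out.pos
  have hAc : (0 : ℝ) < A.card := by exact_mod_cast hA.card_pos
  -- the set D
  set D : Finset (ZMod p) := 6 • A - 6 • A with hD
  have hDc : (D.card : ℝ) ≤ K ^ 12 * A.card := by
    have h := Finset.pluennecke_ruzsa_inequality_nsmul_sub_nsmul_add hA A 6 6
    have h2 : ((D.card : ℚ≥0) : ℝ) ≤ (((A + A).card / A.card : ℚ≥0) ^ (6 + 6) * A.card : ℚ≥0) := by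
      exact_mod_cast h
    push_cast at h2
    refine h2.trans ?_
    have h3 : ((A + A).card : ℝ) / A.card ≤ K := by
      rw [div_le_iff₀ hAc]
      exact hK
    gcongr
  obtain ⟨s₀, hs₀⟩ := hA
  have hAD : A.card ≤ D.card := by
    have h1 : (A.image fun a => a - s₀) ⊆ D := by
      intro x hx
      obtain ⟨a, ha, rfl⟩ := Finset.mem_image.1 hx
      have : a - s₀ = (a + s₀ + s₀ + s₀ + s₀ + s₀) - (s₀ + s₀ + s₀ + s₀ + s₀ + s₀) := by ring
      rw [this]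
      exact Finset.sub_mem_sub (six_mem A ha hs₀ hs₀ hs₀ hs₀ hs₀)
        (six_mem A hs₀ hs₀ hs₀ hs₀ hs₀ hs₀)
    have h2 : (A.image fun a => a - s₀).card = A.card :=
      Finset.card_image_of_injective _ (fun x y hxy => by simpa using hxy)
    rw [← h2]
    exact Finset.card_le_card h1
  obtain ⟨t, ht, hRZ⟩ := hRZT p (2 * D.card + 1) D (Nat.lt_succ_self _)
  -- pigeonhole
  have hmap : ∀ a ∈ A, 8 * (t * a).val / p ∈ Finset.range 8 := by
    intro a _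
    rw [Finset.mem_range, Nat.div_lt_iff_lt_mul hp0]
    have := ZMod.val_lt (t * a)
    omega
  obtain ⟨j, _, hj⟩ := Finset.exists_le_card_fiber_of_nsmul_le_card_of_maps_to (M := ℝ)
    (s := A) (t := Finset.range 8) (b := (A.card : ℝ) / 8) hmap ⟨0, by simp⟩
    (by rw [Finset.card_range, nsmul_eq_mul]; push_cast; linarith)
  set S : Finset (ZMod p) := A.filter fun a => 8 * (t * a).val / p = j with hSdef
  have hSA : S ⊆ A := Finset.filter_subset _ _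
  have hSne : S.Nonempty := by
    rw [← Finset.card_pos]
    have : (0 : ℝ) < S.card := lt_of_lt_of_le (by positivity) hj
    exact_mod_cast this
  have hbd : ∀ a ∈ S, ((j * p : ℕ) : ℤ) ≤ 8 * ((t * a).val : ℤ) ∧
      8 * ((t * a).val : ℤ) < ((j * p : ℕ) : ℤ) + p := by
    intro a ha
    have h1 := (Finset.mem_filter.1 ha).2
    have h2 := (Nat.div_eq_iff hp0).1 h1
    constructor
    · have : j * p ≤ 8 * (t * a).val := by
        have := h2.1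
        omega
      exact_mod_cast this
    · have : 8 * (t * a).val < j * p + p := by
        have := h2.2
        omega
      exact_mod_cast this
  haveI hm : NeZero (2 * D.card + 1) := ⟨Nat.succ_ne_zero _⟩
  set f : ZMod p → ZMod (2 * D.card + 1) := fun a => (((t * a).val : ℤ) : ZMod (2 * D.card + 1))
    with hf
  have key : ∀ a₁ ∈ S, ∀ a₂ ∈ S, ∀ a₃ ∈ S, ∀ a₄ ∈ S, ∀ a₅ ∈ S, ∀ a₆ ∈ S,
      ∀ b₁ ∈ S, ∀ b₂ ∈ S, ∀ b₃ ∈ S, ∀ b₄ ∈ S, ∀ b₅ ∈ S, ∀ b₆ ∈ S,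
      (f a₁ + f a₂ + f a₃ + f a₄ + f a₅ + f a₆ = f b₁ + f b₂ + f b₃ + f b₄ + f b₅ + f b₆ ↔
      a₁ + a₂ + a₃ + a₄ + a₅ + a₆ = b₁ + b₂ + b₃ + b₄ + b₅ + b₆) := by
    intro a₁ h₁ a₂ h₂ a₃ h₃ a₄ h₄ a₅ h₅ a₆ h₆ b₁ g₁ b₂ g₂ b₃ g₃ b₄ g₄ b₅ g₅ b₆ g₆
    set E : ℤ := (((t * a₁).val : ℤ) + (t * a₂).val + (t * a₃).val + (t * a₄).val + (t * a₅).val
      + (t * a₆).val) - (((t * b₁).val : ℤ) + (t * b₂).val + (t * b₃).val + (t * b₄).val
      + (t * b₅).val + (t * b₆).val) with hE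
    have hEabs : |E| < p := by
      have ha₁ := hbd a₁ h₁
      have ha₂ := hbd a₂ h₂
      have ha₃ := hbd a₃ h₃
      have ha₄ := hbd a₄ h₄
      have ha₅ := hbd a₅ h₅
      have ha₆ := hbd a₆ h₆
      have hb₁ := hbd b₁ g₁
      have hb₂ := hbd b₂ g₂
      have hb₃ := hbd b₃ g₃
      have hb₄ := hbd b₄ g₄
      have hb₅ := hbd b₅ g₅
      have hb₆ := hbd b₆ g₆
      rw [abs_lt]
      constructor <;> omega
    have hEp : ((E : ℤ) : ZMod p) = t * ((a₁ + a₂ + a₃ + a₄ + a₅ + a₆) -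
        (b₁ + b₂ + b₃ + b₄ + b₅ + b₆)) := by
      rw [hE]
      push_cast
      simp only [ZMod.natCast_zmod_val]
      ring
    have hEm : ((E : ℤ) : ZMod (2 * D.card + 1)) = (f a₁ + f a₂ + f a₃ + f a₄ + f a₅ + f a₆) -
        (f b₁ + f b₂ + f b₃ + f b₄ + f b₅ + f b₆) := by
      rw [hE, hf]
      push_cast
      ring
    have hdD : (a₁ + a₂ + a₃ + a₄ + a₅ + a₆) - (b₁ + b₂ + b₃ + b₄ + b₅ + b₆) ∈ D :=
      Finset.sub_mem_sub
        (six_mem A (hSA h₁) (hSA h₂) (hSA h₃) (hSA h₄) (hSA h₅) (hSA h₆))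
        (six_mem A (hSA g₁) (hSA g₂) (hSA g₃) (hSA g₄) (hSA g₅) (hSA g₆))
    constructor
    · intro h
      have h1 : ((E : ℤ) : ZMod (2 * D.card + 1)) = 0 := by rw [hEm, h, sub_self]
      have h2 : (((2 * D.card + 1 : ℕ) : ℤ)) ∣ E := (ZMod.intCast_zmod_eq_zero_iff_dvd _ _).1 h1
      have h3 := hRZ _ hdD E hEabs hEp h2
      rw [h3, Int.cast_zero] at hEp
      have h4 := (mul_eq_zero.1 hEp.symm).resolve_left ht
      exact sub_eq_zero.1 h4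
    · intro h
      rw [h, sub_self, mul_zero] at hEp
      have h2 : ((p : ℤ)) ∣ E := (ZMod.intCast_zmod_eq_zero_iff_dvd _ _).1 hEp
      have h3 : E = 0 := Int.eq_zero_of_abs_lt_dvd h2 hEabs
      rw [h3, Int.cast_zero] at hEm
      exact sub_eq_zero.1 hEm.symm
  obtain ⟨φ, h1, h2, h3⟩ := mod_aux p (2 * D.card + 1) A S hSA hSne f key
  refine ⟨2 * D.card + 1, hm, S.image f, φ, by omega, ?_, h1, h2, h3⟩
  obtain ⟨s, hs⟩ := hSne
  have hinj : (S.image f).card = S.card := by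
    apply Finset.card_image_of_injOn
    intro a ha b hb hab
    have h := (key a ha s hs s hs s hs s hs s hs b hb s hs s hs s hs s hs s hs).1
      (by rw [hab])
    linear_combination h
  rw [hinj]
  have h4 : ((2 * D.card + 1 : ℕ) : ℝ) ≤ 3 * (K ^ 12 * A.card) := by
    have hD1 : (1 : ℝ) ≤ D.card := by
      have : 1 ≤ D.card := le_trans (Finset.card_pos.2 ⟨s₀, hs₀⟩) hAD
      exact_mod_cast this
    push_cast
    linarith
  have hSc : (A.card : ℝ) ≤ 8 * S.card := by linarith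
  have hK0 : 0 ≤ K ^ 12 := by positivity
  calc ((2 * D.card + 1 : ℕ) : ℝ) ≤ 3 * (K ^ 12 * A.card) := h4
    _ ≤ 3 * (K ^ 12 * (8 * S.card)) := by gcongr
    _ = (24 * K ^ 12) * S.card := by ring
    _ ≤ max 1 (24 * K ^ 12) * S.card := by
      gcongr
      exact le_max_right _ _

end Pool.Agent.helper85.PG
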